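import Pool.Agent.Lib.MP_ce98c0_co.Topo.Main

/-!
# MP_ce98c0_co: every 4-arc-connected digraph splits into a strong and a weak part

This answers Q1 (yes, `k = 4`).  The arcs of every finite 4-arc-connected digraph (parallel arcs allowed, loops
allowed) can be partitioned into `A₁` and `A₂` with `(V, A₁)` strongly connected and `(V, A₂)` weakly connected.

The proof takes two copies of the arc set and the simplicial complex of the pairs `(T, B)` such that `D - T` is
strongly connected and `D - B` is weakly connected.  A facet-free selection of one copy of every arc is a splitting
of `D`, and it exists by the topological form of Hall's theorem of Aharoni and Haxell (`Topo.Hall`) as soon as for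
every arc set `I` the complex induced on the two copies of `I` has vanishing homology (over the field with two
elements) up to dimension `|I| - 2`.  The induced complex is a join; the homology of the two factors is bounded
below by a deletion and contraction argument (`Topo.Weak`, `Topo.Strong`).
-/

set_option autoImplicit false

namespace Pool.Agent.Results.MP_ce98c0_co.FourArcConnected

open Pool.Agent.Lib.MP_ce98c0_co

/-- Every 4-arc-connected digraph has a partition of its arcs into the arc set of a strongly connected spanning
sub-digraph and the arc set of a weakly connected spanning sub-digraph. -/
theorem result (V A : Type) [Finite V] [Finite A] (src tgt : A → V) (h : ArcConnected 4 src tgt) :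
    Decomposable src tgt := by
  classical
  have := Fintype.ofFinite V
  have := Fintype.ofFinite A
  obtain ⟨T, hT1, hT2⟩ := Topo.splitting src tgt h
  refine ⟨{a | a ∉ T}, {a | a ∈ T}, ?_, ?_, hT1, hT2⟩
  · ext a
    simp only [Set.mem_union, Set.mem_setOf_eq, Set.mem_univ, iff_true]
    exact (Classical.em (a ∈ T)).symm
  · ext a
    simp only [Set.mem_inter_iff, Set.mem_setOf_eq, Set.mem_empty_iff_false, iff_false]
    exact fun h => h.1 h.2

end Pool.Agent.Results.MP_ce98c0_co.FourArcConnected
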